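import Mathlib

namespace Pool.Agent.Results.MP_0ef12e_an.Root

open Set Topology

variable {A : Type}

/-- `ϑ` on words: set concatenation. -/
def onWord (ϑ : A → Set (List A)) : List A → Set (List A)
  | [] => {[]}
  | a :: u => {w | ∃ s ∈ ϑ a, ∃ t ∈ onWord ϑ u, w = s ++ t}

/-- `ϑ^p(a)`. -/
def pw (ϑ : A → Set (List A)) (a : A) : ℕ → Set (List A)
  | 0 => {[a]}
  | p + 1 => ⋃ u ∈ pw ϑ a p, onWord ϑ u

def Legal (ϑ : A → Set (List A)) (w : List A) : Prop := ∃ a p, ∃ v ∈ pw ϑ a p, w <:+: v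

/-- the RS-subshift. -/
def X (ϑ : A → Set (List A)) : Set (ℤ → A) :=
  {x | ∀ (i : ℤ) (n : ℕ), Legal ϑ (List.ofFn fun k : Fin n => x (i + k))}

/-- random substitution that is compatible, primitive and non-degenerate. -/
def Admissible [DecidableEq A] (ϑ : A → Set (List A)) : Prop :=
  (∀ a, (ϑ a).Finite ∧ (ϑ a).Nonempty ∧ [] ∉ ϑ a) ∧
  (∀ a, ∀ u ∈ ϑ a, ∀ v ∈ ϑ a, ∀ b, u.count b = v.count b) ∧
  (∃ p ≥ 1, ∀ a b, ∃ v ∈ pw ϑ b p, a ∈ v) ∧ ∃ a, (ϑ a).Nontrivial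

def W : Set (List (Fin 3)) := {[2,0,1,0,1], [2,0,1,1,0], [2,1,0,0,1], [2,1,0,1,0]}
def th : Fin 3 → Set (List (Fin 3)) := fun _ => W

def Blk (x : ℤ → Fin 3) (j : ℤ) : Prop :=
  x j = 2 ∧ x (j + 1) ≠ 2 ∧ x (j + 2) ≠ 2 ∧ x (j + 3) ≠ 2 ∧ x (j + 4) ≠ 2 ∧
    x (j + 1) ≠ x (j + 2) ∧ x (j + 3) ≠ x (j + 4)

lemma W_iff (a b c d e : Fin 3) : [a, b, c, d, e] ∈ W ↔
    a = 2 ∧ b ≠ 2 ∧ c ≠ 2 ∧ d ≠ 2 ∧ e ≠ 2 ∧ b ≠ c ∧ d ≠ e := by
  simp only [W, mem_insert_iff, mem_singleton_iff]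
  revert a b c d e; decide

def seg (x : ℤ → Fin 3) (i : ℤ) (n : ℕ) : List (Fin 3) := List.ofFn fun k : Fin n => x (i + k)

lemma seg_add (x : ℤ → Fin 3) (i : ℤ) (m n : ℕ) : seg x i (m + n) = seg x i m ++ seg x (i + m) n := by
  unfold seg; rw [List.ofFn_add]; simp [add_assoc]

lemma seg5 (x : ℤ → Fin 3) (i : ℤ) : seg x i 5 ∈ W ↔ Blk x i := by
  have : seg x i 5 = [x i, x (i + 1), x (i + 2), x (i + 3), x (i + 4)] := by
    simp [seg, List.ofFn_succ]
  rw [this, W_iff, Blk]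

lemma W_len {s : List (Fin 3)} (h : s ∈ W) : s.length = 5 := by
  rcases h with h | h | h | h <;> rw [h] <;> rfl

lemma ow_len (u : List (Fin 3)) : ∀ v ∈ onWord th u, v.length = 5 * u.length := by
  induction u with
  | nil => rintro v rfl; rfl
  | cons a u ih => rintro _ ⟨s, hs, t, ht, rfl⟩; simp [W_len hs, ih t ht]; ring

lemma ow_iff (x : ℤ → Fin 3) (u : List (Fin 3)) (i : ℤ) :
    seg x i (5 * u.length) ∈ onWord th u ↔ ∀ k < u.length, Blk x (i + 5 * k) := by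
  induction u generalizing i with
  | nil => simp [seg, onWord]
  | cons a u ih =>
    rw [List.length_cons, show 5 * (u.length + 1) = 5 + 5 * u.length by ring, seg_add]
    constructor
    · rintro ⟨s, hs, t, ht, e⟩ k hk
      obtain ⟨rfl, rfl⟩ := List.append_inj e (by simp [seg, W_len hs])
      rcases k with _ | k
      · simpa using (seg5 x i).1 hs
      · convert (ih _).1 ht k (by omega) using 1; push_cast; ring
    · intro h
      refine ⟨_, (seg5 x i).2 (by simpa using h 0 (by omega)), _, (ih _).2 fun k hk => ?_, rfl⟩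
      convert h (k + 1) (by omega) using 1; push_cast; ring

lemma pw_len (p : ℕ) : ∃ u ∈ pw th 0 p, p ≤ u.length := by
  induction p with
  | zero => exact ⟨_, rfl, by simp⟩
  | succ p ih =>
    obtain ⟨u, hu, hl⟩ := ih
    have h1 : ∀ u, (onWord th u).Nonempty := fun u => by
      induction u with
      | nil => exact ⟨_, rfl⟩
      | cons a u ih => obtain ⟨t, ht⟩ := ih; exact ⟨_, _, Or.inl rfl, t, ht, rfl⟩
    obtain ⟨v, hv⟩ := h1 u
    refine ⟨v, mem_iUnion₂.2 ⟨u, hu, hv⟩, ?_⟩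
    rw [ow_len u v hv]
    rcases p with _ | p
    · rw [show u = [0] from hu]; simp
    · omega

lemma of_blk {x : ℤ → Fin 3} {r : ℤ} (h : ∀ k : ℤ, Blk x (r + 5 * k)) : x ∈ X th := by
  intro i n
  obtain ⟨u, hu, hl⟩ := pw_len (n + 1)
  obtain ⟨o, ho⟩ : ∃ o : ℕ, (o : ℤ) = (i - r) % 5 := ⟨((i - r) % 5).toNat, by omega⟩
  refine ⟨0, n + 2, seg x (i - o) (5 * u.length), mem_iUnion₂.2 ⟨u, hu, (ow_iff _ _ _).2 fun k _ => ?_⟩,
    seg x (i - o) o, seg x (i - o + (o + n : ℕ)) (5 * u.length - (o + n)), ?_⟩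
  · convert h ((i - r) / 5 + k) using 1; omega
  · rw [show 5 * u.length = o + n + (5 * u.length - (o + n)) by omega, seg_add, seg_add,
      sub_add_cancel, Nat.add_sub_cancel_left]; rfl

lemma win {x : ℤ → Fin 3} (h : x ∈ X th) (i : ℤ) :
    ∃ j, i ≤ j ∧ j < i + 5 ∧ Blk x j ∧ Blk x (j + 5) ∧ Blk x (j + 10) := by
  obtain ⟨a, p, v, hv, s, t, e⟩ := h i 19
  have hl := congrArg List.length e
  simp only [List.length_append, List.length_ofFn] at hl
  rcases p with _ | p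
  · rw [show v = [a] from hv] at hl; simp at hl; omega
  obtain ⟨u, -, hu⟩ := mem_iUnion₂.1 hv
  have h5 := ow_len u v hu
  let y : ℤ → Fin 3 := fun m => v.getD (m - i + s.length).toNat 0
  have e1 : seg y (i - s.length) (5 * u.length) = v := by
    apply List.ext_getElem (by simp [seg, h5])
    intro n h1 h2
    simp only [seg, y, List.getElem_ofFn]
    rw [show (i - s.length + n - i + s.length).toNat = n by omega, List.getD_eq_getElem _ _ h2]
  have hb := (ow_iff y u (i - s.length)).1 (by rw [e1]; exact hu)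
  have e2 : ∀ m, i ≤ m → m < i + 19 → y m = x m := fun m h1 h2 => by
    obtain ⟨k, rfl⟩ : ∃ k : ℕ, m = i + k := ⟨(m - i).toNat, by omega⟩
    simp only [y, ← e]
    rw [show (i + k - i + s.length).toNat = s.length + k by omega, List.append_assoc,
      List.getD_append_right _ _ _ _ (by omega), List.getD_append _ _ _ _ (by simp; omega),
      List.getD_eq_getElem _ _ (by simp; omega), List.getElem_ofFn]
    simp
  have tr : ∀ j, i ≤ j → j + 4 < i + 19 → Blk y j → Blk x j := fun j h1 h2 hj => by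
    unfold Blk at hj ⊢
    rwa [e2 _ h1 (by omega), e2 _ (by omega) (by omega), e2 (j + 2) (by omega) (by omega),
      e2 (j + 3) (by omega) (by omega), e2 (j + 4) (by omega) (by omega)] at hj
  refine ⟨i - s.length + 5 * ((s.length + 4) / 5 : ℕ), by omega, by omega,
    tr _ (by omega) (by omega) (hb _ (by omega)), tr _ (by omega) (by omega) ?_,
    tr _ (by omega) (by omega) ?_⟩
  · convert hb ((s.length + 4) / 5 + 1) (by omega) using 1; omega
  · convert hb ((s.length + 4) / 5 + 2) (by omega) using 1; omega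

lemma to_blk {x : ℤ → Fin 3} (h : x ∈ X th) : ∃ r, ∀ k : ℤ, Blk x (r + 5 * k) := by
  have st : ∀ j, Blk x j → Blk x (j - 5) ∧ Blk x (j + 5) := fun j hj => by
    obtain ⟨l, h1, h2, a, ⟨-, b1, b2, b3, b4, -⟩, c⟩ := win h (j - 9)
    have : j = l + 5 := by
      by_contra hne
      have : j = l + 5 + 1 ∨ j = l + 5 + 2 ∨ j = l + 5 + 3 ∨ j = l + 5 + 4 := by omega
      rcases this with rfl | rfl | rfl | rfl
      exacts [b1 hj.1, b2 hj.1, b3 hj.1, b4 hj.1]
    subst this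
    exact ⟨by simpa using a, by convert c using 1; ring⟩
  obtain ⟨r, -, -, hr, -⟩ := win h 0
  refine ⟨r, fun k => ?_⟩
  induction k with
  | zero => simpa using hr
  | succ k ih => convert (st _ ih).2 using 1; ring
  | pred k ih => convert (st _ ih).1 using 1; ring

def f (x : ℤ → Fin 3) (i : ℤ) : Fin 3 :=
  if x (i - 2) = 2 then 2 else if x i = 2 ∨ x (i - 1) = 2 then x (i + 1) else x i

lemma two {x : ℤ → Fin 3} {r : ℤ} (h : ∀ k : ℤ, Blk x (r + 5 * k)) (i : ℤ) :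
    x i = 2 ↔ (i - r) % 5 = 0 := by
  obtain ⟨a, b, c, d, e, -⟩ := h ((i - r) / 5)
  have : (i - r) % 5 = 0 ∨ (i - r) % 5 = 1 ∨ (i - r) % 5 = 2 ∨ (i - r) % 5 = 3 ∨
    (i - r) % 5 = 4 := by omega
  rcases this with h0 | h0 | h0 | h0 | h0
  · rw [show r + 5 * ((i - r) / 5) = i by omega] at a; exact iff_of_true a h0
  · rw [show r + 5 * ((i - r) / 5) + 1 = i by omega] at b; exact iff_of_false b (by omega)
  · rw [show r + 5 * ((i - r) / 5) + 2 = i by omega] at c; exact iff_of_false c (by omega)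
  · rw [show r + 5 * ((i - r) / 5) + 3 = i by omega] at d; exact iff_of_false d (by omega)
  · rw [show r + 5 * ((i - r) / 5) + 4 = i by omega] at e; exact iff_of_false e (by omega)

lemma f_eq {x : ℤ → Fin 3} {r : ℤ} (h : ∀ k : ℤ, Blk x (r + 5 * k)) (i : ℤ) :
    f x i = if (i - r) % 5 = 2 then 2 else if (i - r) % 5 ≤ 1 then x (i + 1) else x i := by
  simp only [f, two h]
  split_ifs <;> first | rfl | omega

lemma f_blk {x : ℤ → Fin 3} {r : ℤ} (h : ∀ k : ℤ, Blk x (r + 5 * k)) (k : ℤ) :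
    Blk (f x) (r + 2 + 5 * k) := by
  obtain ⟨-, -, -, a1, a2, -, a3⟩ := h k
  obtain ⟨-, b1, b2, -, -, b3, -⟩ := h (k + 1)
  have e1 : f x (r + 2 + 5 * k + 1) = x (r + 5 * k + 3) := by
    rw [f_eq h, if_neg (by omega), if_neg (by omega)]; exact congrArg x (by ring)
  have e2 : f x (r + 2 + 5 * k + 2) = x (r + 5 * k + 4) := by
    rw [f_eq h, if_neg (by omega), if_neg (by omega)]; exact congrArg x (by ring)
  have e3 : f x (r + 2 + 5 * k + 3) = x (r + 5 * (k + 1) + 1) := by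
    rw [f_eq h, if_neg (by omega), if_pos (by omega)]; exact congrArg x (by ring)
  have e4 : f x (r + 2 + 5 * k + 4) = x (r + 5 * (k + 1) + 2) := by
    rw [f_eq h, if_neg (by omega), if_pos (by omega)]; exact congrArg x (by ring)
  unfold Blk
  rw [e1, e2, e3, e4]
  exact ⟨by rw [f_eq h, if_pos (by omega)], a1, a2, b1, b2, a3, b3⟩

lemma ff {x : ℤ → Fin 3} (hx : x ∈ X th) (i : ℤ) : f (f x) i = x (i + 1) := by
  obtain ⟨r, h⟩ := to_blk hx
  rw [f_eq (f_blk h), f_eq h, f_eq h]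
  split_ifs <;> first | rfl | omega | exact ((two h _).2 (by omega)).symm

lemma f_mem {x : ℤ → Fin 3} (hx : x ∈ X th) : f x ∈ X th :=
  (to_blk hx).elim fun _ h => of_blk (f_blk h)

lemma f_cont : Continuous f := continuous_pi fun i =>
  (continuous_of_discreteTopology (f := fun p : Fin 3 × Fin 3 × Fin 3 × Fin 3 =>
    if p.1 = 2 then 2 else if p.2.1 = 2 ∨ p.2.2.1 = 2 then p.2.2.2 else p.2.1)).comp
    (by fun_prop : Continuous fun x : ℤ → Fin 3 => (x (i - 2), x i, x (i - 1), x (i + 1)))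

lemma f_sh (x : ℤ → Fin 3) (c i : ℤ) : f (fun j => x (j + c)) i = f x (i + c) := by
  simp only [f]; ring_nf

lemma sh_mem {x : ℤ → Fin 3} (hx : x ∈ X th) (c : ℤ) : (fun j => x (j + c)) ∈ X th := fun i n => by
  convert hx (i + c) n using 3; exact congrArg x (by ring)

theorem result : ∃ ϑ : Fin 3 → Set (List (Fin 3)), Admissible ϑ ∧ (X ϑ).Nonempty ∧
    ∃ F : X ϑ ≃ₜ X ϑ, (∀ x y : X ϑ, (∀ i, y.1 i = x.1 (i + 1)) → ∀ i, (F y).1 i = (F x).1 (i + 1)) ∧
      ∀ (x : X ϑ) i, (F (F x)).1 i = x.1 (i + 1) := by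
  refine ⟨th, ⟨fun a => ⟨by simp [th, W], ⟨_, Or.inl rfl⟩, by simp [th, W]⟩, ?_,
    ⟨1, le_rfl, fun a b => ⟨[2,0,1,0,1], mem_iUnion₂.2 ⟨[b], rfl, _, Or.inl rfl, [], rfl, rfl⟩, ?_⟩⟩,
    0, _, Or.inl rfl, _, Or.inr (Or.inl rfl), by decide⟩,
    ⟨fun i => if i % 5 = 0 then 2 else if i % 5 % 2 = 1 then 0 else 1, of_blk (r := 0) fun k => ?_⟩,
    ⟨⟨fun x => ⟨f x, f_mem x.2⟩, fun x => ⟨f fun j => x.1 (j + -1), f_mem (sh_mem x.2 _)⟩,
      fun x => ?_, fun x => ?_⟩, (f_cont.comp continuous_subtype_val).subtype_mk _,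
      (f_cont.comp (continuous_pi fun j =>
        (continuous_apply (j + -1)).comp continuous_subtype_val)).subtype_mk _⟩, fun x y h i => ?_, fun x i => ff x.2 i⟩
  · rintro a u (rfl | rfl | rfl | rfl) v (rfl | rfl | rfl | rfl) <;> decide
  · revert a; decide
  · unfold Blk
    beta_reduce
    refine ⟨?_, ?_, ?_, ?_, ?_, ?_, ?_⟩ <;> split_ifs <;> omega
  · ext i
    show ((f (fun j => f x.1 (j + -1)) i : Fin 3) : ℕ) = x.1 i
    rw [f_sh, ff x.2]; simp
  · ext i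
    show ((f (f fun j => x.1 (j + -1)) i : Fin 3) : ℕ) = x.1 i
    rw [ff (sh_mem x.2 _)]; simp
  · show f y.1 i = f x.1 (i + 1)
    rw [← f_sh, funext h]

end Pool.Agent.Results.MP_0ef12e_an.Root
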